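import Pool.Agent.Lib.MP_6bc951_gt.Theta4

open Pool.Agent.Lib.MP_6bc951_gt

universe u v

theorem Pool.Agent.Results.MP_6bc951_gt.MaximalShortIff.result
    (L : Type u) [MetricSpace L] (hL : IsCBBOne L) :
    (∀ (U : Type v) [MetricSpace U], IsCATOne U → ∀ (Q : Set L), Q ⊂ Set.univ →
      ∀ f : Q → U, LipschitzWith 1 f → IsMaximalShort Q f →
        (IsHilbertSphere Q ∧ ∃ p : L, ∀ q ∈ Q, dist p q = Real.pi / 2) ∧
          (Isometry f ∧ ¬ ∃ p' : U, ∀ q : Q, dist p' (f q) = Real.pi / 2)) ↔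
    ∀ x y : L, dist x y ≤ Real.pi :=
  Theta.main_iff L hL
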